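import Pool.Agent.R592.Ent.Ground

/-!
# `cov(B) = 𝔠` is not necessary to separate `n`-entangledness

`Star` is the statement `(∗)`: for every `n > 1` some set of reals is `(𝔠, n)`-entangled but not
`(𝔠, n + 1)`-entangled. We prove that `(∗)` follows from `cov(N) = 𝔠`, where `N` is the null
ideal. In the random model `cov(B) = ℵ₁ < cov(N) = 𝔠`, so `(∗)` does not imply `cov(B) = 𝔠`.

The forcing language is that of `Pool.Agent.TH773.PSet.Defs`: a sentence is a regular open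
subset of the forcing `P`, and `p ∈ φ` says that `p` forces `φ`.
-/

set_option autoImplicit false

open Cardinal Pool.Agent.R592.Ent Pool.Agent.TH773.PSet

namespace Pool.Agent.Results.MP_360872_lc.RandomModel

/-- `cov(N) ≤ 𝔠` -/
lemma covN_le : covN ≤ 𝔠 := by
  have h : covN ≤ #(Set.range fun x : ℕ → Bool => ({x} : Set (ℕ → Bool))) := by
    refine csInf_le' ⟨_, ?_, ?_, rfl⟩
    · rintro _ ⟨x, rfl⟩
      exact isNull_singleton x
    · exact Set.eq_univ_of_forall fun x => ⟨{x}, ⟨x, rfl⟩, rfl⟩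
  refine h.trans (mk_range_le.trans ?_)
  simp

/-- The statement `(∗)` does not imply `cov(B) = 𝔠`.

(1) If `κ ^ ω = κ > ω` and `ω < ν ≤ κ` then random forcing for `κ` random reals forces the
sentence `Model κ ν`: the cardinals of the ground model are preserved, the continuum is at most
`κ`, the space `2 ^ ω` is not covered by fewer than `κ` null sets and it is covered by `ν` meagre
sets; in particular some nontrivial forcing forces `Model κ ℵ₁` for some `κ > ℵ₁`.
(2) The meaning of the sentence `Model κ ν` (its value over the trivial forcing) is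
`𝔠 ≤ κ ≤ cov(N)` and `cov(B) ≤ ν`.
(3) If `ν < κ` then these inequalities imply that `cov(B) < 𝔠` and that `(∗)` holds.
(4) `(∗)` holds if `cov(N) = 𝔠`. -/
theorem result :
    (∀ (I : Type) (ν : Cardinal.{0}), ℵ₀ < #I → #I ^ ℵ₀ = #I → ℵ₀ < ν → ν ≤ #I →
      ∀ p : Random I, p ∈ Model.{0, 0} (Random I) #I ν) ∧
    (∃ (κ : Cardinal.{0}) (P : Type) (_ : Preorder P), ℵ₁ < κ ∧ Nonempty P ∧
      ∀ p : P, p ∈ Model.{0, 0} P κ ℵ₁) ∧
    (∀ (κ ν : Cardinal.{0}) (p : Unit), p ∈ Model.{0, 0} Unit κ ν ↔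
      (𝔠 ≤ κ ∧ κ ≤ covN ∧ covM ≤ ν)) ∧
    (∀ κ ν : Cardinal.{0}, ν < κ → (𝔠 ≤ κ ∧ κ ≤ covN ∧ covM ≤ ν) → covM < 𝔠 ∧ Star) ∧
    (covN = 𝔠 → Star) := by
  refine ⟨fun I ν h1 h2 h3 h4 p => model h1 h2 h3 h4 p, ?_, fun κ ν p => unit_model, ?_,
    fun h => star_of_le h.ge⟩
  · let κ : Cardinal.{0} := 2 ^ ℵ₁
    have h1 : ℵ₁ < κ := cantor _
    have h2 : κ ^ ℵ₀ = κ := by
      show (2 ^ ℵ₁) ^ ℵ₀ = 2 ^ ℵ₁
      rw [← power_mul, mul_eq_left aleph0_lt_aleph_one.le aleph0_lt_aleph_one.le aleph0_ne_zero]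
    refine ⟨κ, Random κ.out, inferInstance, h1,
      ⟨⟨Set.univ, MeasurableSet.univ, ?_⟩⟩, fun p => ?_⟩
    · simp
    · have h3 := model (I := κ.out) (by rw [mk_out]; exact aleph0_lt_aleph_one.trans h1)
        (by rw [mk_out]; exact h2) aleph0_lt_aleph_one (by rw [mk_out]; exact h1.le) p
      rw [mk_out] at h3
      exact h3
  · rintro κ ν hν ⟨h1, h2, h3⟩
    exact ⟨h3.trans_lt (hν.trans_le (h2.trans covN_le)), star_of_le (h1.trans h2)⟩

end Pool.Agent.Results.MP_360872_lc.RandomModel
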